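import Pool.Agent.Helper46_Burg.Final
import Pool.Agent.Helper46_Burg.Uniq

/-!
# Small-time global null controllability of `(E_γ)` for `1 < γ ≤ 3/2`

`MemH14` and `IsSolution` are defined in `Pool.Agent.Helper46_Burg.Problem`.
-/

set_option autoImplicit false

open MeasureTheory Set
open Pool.Agent.Burg

namespace Pool.Agent.Results.MP_2e12f0_an.SmallTimeControl

theorem result : ∀ γ : ℝ, 1 < γ → γ ≤ 3 / 2 → ∀ T : ℝ, 0 < T → ∀ y0 : ℝ → ℝ,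
    MemLp y0 ⊤ (volume.restrict (Ioo 0 1)) →
    ∃ u v : ℝ → ℝ,
      MemLp u ⊤ (volume.restrict (Ioo 0 T)) ∧
      MemLp v ⊤ (volume.restrict (Ioo 0 T)) ∧ MemH14 T v ∧
      (∃ y : ℝ → ℝ → ℝ, IsSolution γ T y0 u v y) ∧
      ∀ y : ℝ → ℝ → ℝ, IsSolution γ T y0 u v y →
        y T =ᵐ[volume.restrict (Ioo 0 1)] 0 := by
  intro γ hγ1 hγ2 T hT y0 hy0
  obtain ⟨u, v, y, hu, hv, hv', hy, hyT⟩ := main hγ1 hγ2 hT hy0
  refine ⟨u, v, hu, hv, hv', ⟨y, hy⟩, fun z hz => ?_⟩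
  exact ((hz.unique hγ1 hT hy) T ⟨hT.le, le_rfl⟩).trans hyT

end Pool.Agent.Results.MP_2e12f0_an.SmallTimeControl
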